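import Pool.Agent.Helper28.Bil.Pro
import Pool.Agent.Helper41.Bil.M7a
import Pool.Agent.Helper75.Bil.M7b
import Pool.Agent.Helper65.Bil.M7c
import Pool.Agent.Helper87.Bil.Plateau
import Pool.Agent.Helper10.Bil.Link
import Pool.Agent.Helper60.Bil.Fin
import Pool.Agent.Helper26.Bil.ToolsA
import Pool.Agent.Helper95.Bil.ToolsB
import Pool.Agent.Helper88.Bil.Ccsg
import Pool.Agent.Helper58.Bil.GeoDefs

/-! Piece LAUNCH1 of MP_190632_an: from the scaled system to the raw launcher. -/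

set_option autoImplicit false

namespace Pool.Agent.Helper58.Bil

open Real Set Filter Topology

namespace Launch1

/-- unscaled form of a link relation -/
theorem link_un {α α' σ ε x t s N e η N' e' η' D D' k : ℝ} (hα : cos α ≠ 0) (hα' : cos α' ≠ 0)
    (hx : 0 < x) (ht0 : 0 < t) (ht : t = ε * chi x) (hts : t = x ^ 2 * s)
    (h : LinkRel α α' σ t (PP s x) N e η N' e' η' D D' k) (h0 : 0 < x + t * (N - D))
    (h1 : 0 < x + t * (N + D + 2 * D')) :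
    1 + σ * (ε * chi (x + t * (N - D))) =
      (1 / cos α + t ^ 2 * e) * cos (α + t * D) - (t * η) * sin (α + t * D) ∧
    1 + t * k = (1 / cos α + t ^ 2 * e) * cos (α + t * D) + (t * η) * sin (α + t * D) ∧
    1 + t * k = (1 / cos α' + t ^ 2 * e') * cos (α' + t * D') - (t * η') * sin (α' + t * D') ∧
    1 + σ * (ε * chi (x + t * (N + D + 2 * D'))) =
      (1 / cos α' + t ^ 2 * e') * cos (α' + t * D') + (t * η') * sin (α' + t * D') ∧
    (2 * (1 / cos α + t ^ 2 * e) * sin (α + t * D) - 2 * (t * D) - 2 * tan α) +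
      (2 * (1 / cos α' + t ^ 2 * e') * sin (α' + t * D') - 2 * (t * D') - 2 * tan α') =
      σ * ∫ y in (x + t * (N - D))..(x + t * (N + D + 2 * D')), ε * chi y := by
  have hP : ∀ Y, 0 < x + t * Y → ε * chi (x + t * Y) = t * PP s x Y := by
    intro Y hY
    have h2 := chi_PP hx hts hY
    calc ε * chi (x + t * Y) = ε * (chi x * PP s x Y) := by rw [h2]
      _ = (ε * chi x) * PP s x Y := by ring
      _ = t * PP s x Y := by rw [← ht]
  have hc := cc_unscaled α t D e hα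
  have hc' := cc_unscaled α' t D' e' hα'
  have hs := sg_unscaled α t D e hα
  have hs' := sg_unscaled α' t D' e' hα'
  refine ⟨?_, ?_, ?_, ?_, ?_⟩
  · rw [hP _ h0]
    linear_combination hc + t * h.r1
  · linear_combination hc + t * h.r2
  · linear_combination hc' + t * h.r3
  · rw [hP _ h1]
    linear_combination hc' + t * h.r4
  · have hint : ∫ y in (x + t * (N - D))..(x + t * (N + D + 2 * D')), ε * chi y =
        t ^ 2 * ∫ y in (N - D)..(N + D + 2 * D'), PP s x y := by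
      rw [← intervalIntegral.mul_integral_comp_add_mul t x (f := fun y => ε * chi y)]
      have h2 : ∫ y in (N - D)..(N + D + 2 * D'), ε * chi (x + t * y) =
          ∫ y in (N - D)..(N + D + 2 * D'), t * PP s x y := by
        apply intervalIntegral.integral_congr
        intro Y hY
        apply hP
        rw [mem_uIcc] at hY
        rcases hY with hY | hY
        · have := mul_le_mul_of_nonneg_left hY.1 ht0.le
          linarith
        · have := mul_le_mul_of_nonneg_left hY.1 ht0.le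
          linarith
      rw [h2, intervalIntegral.integral_const_mul]
      ring
    rw [hint]
    linear_combination t ^ 2 * h.r6 - hs - hs'

/-- All local facts at a point near the base. -/
structure Loc (α μ : ℝ) (a : ℝ × ℝ × ℝ × (ℝ × ℝ) → ℝ) (G : ℝ × ℝ × ℝ × (ℝ × ℝ) → ℝ × ℝ)
    (w : ℝ × ℝ × ℝ × (ℝ × ℝ)) : Prop where
  l1 : LinkRel α (al2 α) (-1) w.1 (PP w.2.1 w.2.2.1) 0 (estar α + w.2.2.2.1)
    (w.2.1 * w.2.2.2.2 / μ) (N2 α (qm (estar α) μ w)) (e2 α (qm (estar α) μ w))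
    (h2 α (qm (estar α) μ w)) (D1 α (qm (estar α) μ w)) (D2 α (qm (estar α) μ w))
    (K1 α (qm (estar α) μ w))
  l2 : LinkRel (al2 α) α 1 w.1 (PP w.2.1 w.2.2.1) (N2 α (qm (estar α) μ w))
    (e2 α (qm (estar α) μ w)) (h2 α (qm (estar α) μ w))
    (XX α (qm (estar α) μ w)) (e4 α (qm (estar α) μ w)) (h4 α (qm (estar α) μ w))
    (D3 α (qm (estar α) μ w)) (D4 α (qm (estar α) μ w)) (K2 α (qm (estar α) μ w))
  x1 : XX α (qm (estar α) μ w) = - (w.1 * a w)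
  x2 : e4 α (qm (estar α) μ w) =
        (PP w.2.1 w.2.2.1 (XX α (qm (estar α) μ w))) ^ 2 * (estar α + (w.2.2.2 - w.1 • G w).1)
  x3 : h4 α (qm (estar α) μ w) * (1 + w.2.2.1 * w.2.1 * XX α (qm (estar α) μ w)) ^ 2 =
        w.2.1 * (PP w.2.1 w.2.2.1 (XX α (qm (estar α) μ w))) ^ 2 * ((w.2.2.2 - w.1 • G w).2 / μ)

theorem qm_smooth (es μ : ℝ) : ContDiff ℝ ((⊤ : ℕ∞) : WithTop ℕ∞) (qm es μ) := by
  unfold qm
  fun_prop

theorem qm_base (es μ x : ℝ) (u : ℝ × ℝ) : qm es μ (0, 0, x, u) = q0 x (es + u.1) := by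
  simp [qm, q0]

theorem smAt_of_contDiff {X F : Type} [NormedAddCommGroup X] [NormedSpace ℝ X]
    [NormedAddCommGroup F] [NormedSpace ℝ F] {f : X → F}
    (h : ContDiff ℝ ((⊤ : ℕ∞) : WithTop ℕ∞) f) (p : X) : SmAt f p :=
  Eventually.of_forall fun _ => h.contDiffAt

theorem smAt_mul {X : Type} [NormedAddCommGroup X] [NormedSpace ℝ X] {f g : X → ℝ} {p : X}
    (hf : SmAt f p) (hg : SmAt g p) : SmAt (fun x => f x * g x) p := by
  filter_upwards [hf, hg] with w h1 h2 using h1.mul h2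

theorem sf_comp_qm (es μ : ℝ) {Ψ : QQ → ℝ} (h : ∀ x e, SmAt Ψ (q0 x e)) :
    SF (fun w : ℝ × ℝ × ℝ × (ℝ × ℝ) => Ψ (qm es μ w)) := by
  intro x u
  apply SmAt.comp (g := Ψ) (f := qm es μ)
  · rw [qm_base]
    exact h x _
  · exact smAt_of_contDiff (qm_smooth es μ) _

theorem sf_fst_mul {Φ : ℝ × ℝ × ℝ × (ℝ × ℝ) → ℝ} (h : SF Φ) : SF (fun w => w.1 * Φ w) := by
  intro x u
  exact smAt_mul (smAt_of_contDiff contDiff_fst _) (h x u)

theorem loc_ev {α ρ μ γ ε₀ : ℝ} {upl : ℝ → ℝ × ℝ} {a : ℝ × ℝ × ℝ × (ℝ × ℝ) → ℝ}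
    {G : ℝ × ℝ × ℝ × (ℝ × ℝ) → ℝ × ℝ} (h1 : 0 < α) (h2 : α < π / 2)
    (FS : FinSys α ρ μ γ ε₀ upl a G) :
    ∃ r > 0, ∀ t s : ℝ, |t| < r → |s| < r → ∀ x ∈ Icc (0 : ℝ) (1 / 5),
      ∀ u ∈ Metric.closedBall (0 : ℝ × ℝ) ρ, Loc α μ a G (t, s, x, u) := by
  apply unif_base (isCompact_closedBall _ _)
  intro x hx u hu
  have h3 := FS.rel x hx u (by simpa using hu)
  have h4 := (link_base h1 h2 x (estar α + u.1)).rel
  have h5 : Tendsto (qm (estar α) μ) (𝓝 (0, 0, x, u)) (𝓝 (q0 x (estar α + u.1))) := by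
    rw [← qm_base]
    exact (qm_smooth (estar α) μ).continuous.continuousAt
  filter_upwards [h3, h5.eventually h4] with w hw hw'
  exact ⟨hw'.1, hw'.2, hw.1, hw.2.1, hw.2.2⟩

theorem good_ev {a : ℝ × ℝ × ℝ × (ℝ × ℝ) → ℝ} {G : ℝ × ℝ × ℝ × (ℝ × ℝ) → ℝ × ℝ}
    {ρ C c : ℝ} (hc : 0 < c) {upl : ℝ → ℝ × ℝ} {u : ℝ → ℝ → ℝ × ℝ}
    (hu : ∀ᶠ ε in 𝓝[>] (0 : ℝ), Sol a G ρ upl ε (u ε) C)
    (hB : ∀ᶠ ε in 𝓝[>] (0 : ℝ), ∀ k : ℕ, ∃ B : ℝ, ∀ x ∈ Ioc (0 : ℝ) (1 / 10),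
      ‖(th^[k] (u ε)) x‖ ≤ B)
    {Φ : ℝ × ℝ × ℝ × (ℝ × ℝ) → ℝ} (hΦ : SF Φ) :
    ∀ᶠ ε in 𝓝[>] (0 : ℝ), Good (gfun ε (u ε) Φ) (1 / 5) c := by
  obtain ⟨ε₃, hε₃, C', h⟩ := M7c ρ C Φ hΦ
  have h1 : ∀ᶠ ε in 𝓝[>] (0 : ℝ), ε ∈ Ioo 0 ε₃ := Ioo_mem_nhdsGT hε₃
  have h2 : ∀ᶠ ε in 𝓝[>] (0 : ℝ), C' * ε < c := by
    have : Tendsto (fun ε : ℝ => C' * ε) (𝓝[>] 0) (𝓝 (C' * 0)) :=
      ((continuous_const.mul continuous_id).tendsto 0).mono_left nhdsWithin_le_nhds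
    rw [mul_zero] at this
    exact this.eventually (gt_mem_nhds hc)
  filter_upwards [hu, hB, h1, h2] with ε hS hB h1 h2
  obtain ⟨h3, h4⟩ := h ε h1 (u ε) hS.smooth hS.bd hS.th1 hS.th2 hB
  refine ⟨h3, fun y hy => ?_, fun y hy => ?_⟩
  · simp [gfun, hy]
  · obtain ⟨h5, h6, h7⟩ := h4 y hy
    exact ⟨h5.trans h2.le, h6.trans h2.le, h7.trans h2.le⟩

theorem gfun_pos {E : Type} {ε x : ℝ} (hx : 0 < x) (u : ℝ → E) (Φ : ℝ × ℝ × ℝ × E → ℝ) :
    gfun ε u Φ x = tt ε x * Φ (WW ε u x) := by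
  simp [gfun, not_le.2 hx]

theorem k2_bdd : ∃ K : ℝ, 0 < K ∧ ∀ x ∈ Ioo (0 : ℝ) (1 / 5), k2 x ≤ K := by
  have hc : ContinuousOn k2 (Icc (0 : ℝ) (1 / 5)) := (chi_div_smooth 2).continuous.continuousOn
  obtain ⟨K, hK⟩ := (isCompact_Icc.bddAbove_image hc)
  refine ⟨max K 1, lt_max_of_lt_right one_pos, fun x hx => le_max_of_le_left ?_⟩
  exact hK ⟨x, ⟨hx.1.le, hx.2.le⟩, rfl⟩

theorem alg_w (x s z P v μ h : ℝ) (hx : x ≠ 0) (hz : z ≠ 0)
    (hh : h * z ^ 2 = s * P ^ 2 * (v / μ)) :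
    (x ^ 2 * s * P) * ((x ^ 2 * s * P) / (x * z) ^ 2 * v / μ) = (x ^ 2 * s) * h := by
  have h1 : h = s * P ^ 2 * (v / μ) / z ^ 2 := eq_div_of_mul_eq (pow_ne_zero 2 hz) hh
  rw [h1]
  field_simp

end Launch1

open Launch1

theorem launch1 {α : ℝ} (h1 : π / 4 < α) (h2 : α < π / 2) {c : ℝ} (hc : 0 < c) :
    ∃ (ε : ℝ) (f1 w1 c1 c2 c3 c4 kA kS v2 w2 : ℝ → ℝ),
      Raw α c ε f1 w1 c1 c2 c3 c4 kA kS v2 w2 := by
  have hπ := Real.pi_pos
  have hα0 : 0 < α := by linarith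
  have hcos : cos α ≠ 0 := (cos_pos_of_mem_Ioo ⟨by linarith, h2⟩).ne'
  have hcos2 : cos (al2 α) ≠ 0 := by
    rw [al2, cos_pi_div_two_sub]
    exact (sin_pos_of_pos_of_lt_pi hα0 (by linarith)).ne'
  have htan : 0 < tan α := tan_pos_of_pos_of_lt_pi_div_two hα0 h2
  have htan2 : 0 < tan (al2 α) := by
    apply tan_pos_of_pos_of_lt_pi_div_two <;> rw [al2] <;> linarith
  obtain ⟨ρ, μ, ε₀, upl, a, G, FS⟩ := fin_sys h1 h2
  obtain ⟨ε₁, hε₁, hε₁₀, C, u, hu⟩ := M7a FS.sys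
  obtain ⟨ε₂, hε₂, hB⟩ := M7b FS.sys
  obtain ⟨ε₃, hε₃, hpl⟩ := plateau hα0 h2
  obtain ⟨r, hr, hloc⟩ := loc_ev hα0 h2 FS
  obtain ⟨K, hK, hk2⟩ := k2_bdd
  have LB := link_base hα0 h2
  set es := estar α with hes
  set M : ℝ := 4 / tan α + 4 / tan (al2 α) with hM
  have hMpos : 0 < M := by positivity
  have eu : ∀ᶠ ε in 𝓝[>] (0 : ℝ), Sol a G ρ upl ε (u ε) C := by
    filter_upwards [Ioo_mem_nhdsGT hε₁] with ε hε using hu ε hε
  have eB : ∀ᶠ ε in 𝓝[>] (0 : ℝ), ∀ k : ℕ, ∃ B : ℝ, ∀ x ∈ Ioc (0 : ℝ) (1 / 10),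
      ‖(th^[k] (u ε)) x‖ ≤ B := by
    filter_upwards [eu, Ioo_mem_nhdsGT hε₂] with ε h3 h4 using hB ε h4 (u ε) C h3
  have hge : ∀ {Φ : ℝ × ℝ × ℝ × (ℝ × ℝ) → ℝ}, SF Φ →
    ∀ᶠ ε in 𝓝[>] (0 : ℝ), Good (gfun ε (u ε) Φ) (1 / 5) c := fun hΦ => good_ev hc eu eB hΦ
  have g0 := hge (Φ := fun _ => 1) (fun x u => smAt_of_contDiff contDiff_const _)
  have g1 := hge (Φ := fun w => w.1 * (es + w.2.2.2.1))
    (fun x u => smAt_of_contDiff (by fun_prop) _)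
  have g2 := hge (sf_comp_qm es μ (Ψ := D1 α) fun x e => (LB x e).sD1)
  have g3 := hge (sf_comp_qm es μ (Ψ := D2 α) fun x e => (LB x e).sD2)
  have g4 := hge (sf_comp_qm es μ (Ψ := D3 α) fun x e => (LB x e).sD3)
  have g5 := hge (sf_comp_qm es μ (Ψ := D4 α) fun x e => (LB x e).sD4)
  have g6 := hge (sf_comp_qm es μ (Ψ := K1 α) fun x e => (LB x e).sK1)
  have g7 := hge (sf_comp_qm es μ (Ψ := K2 α) fun x e => (LB x e).sK2)
  have g8 := hge (sf_fst_mul (sf_comp_qm es μ (Ψ := e2 α) fun x e => (LB x e).se2))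
  have es1 : ∀ᶠ ε in 𝓝[>] (0 : ℝ), ε < min (min ε₀ ε₃) (min r c) ∧ ε * K < min r (1 / (2 * M)) := by
    refine Eventually.and ?_ ?_
    · exact (eventually_lt_nhds (by positivity [FS.sys.ε₀pos])).filter_mono nhdsWithin_le_nhds
    · have : Tendsto (fun ε : ℝ => ε * K) (𝓝[>] 0) (𝓝 (0 * K)) :=
        ((continuous_id.mul continuous_const).tendsto 0).mono_left nhdsWithin_le_nhds
      rw [zero_mul] at this
      exact this.eventually (gt_mem_nhds (by positivity))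
  obtain ⟨ε, hS, hg0, hg1, hg2, hg3, hg4, hg5, hg6, hg7, hg8, ⟨hε1, hε2⟩, hε0⟩ :=
    (eu.and (g0.and (g1.and (g2.and (g3.and (g4.and (g5.and (g6.and (g7.and (g8.and
      (es1.and (self_mem_nhdsWithin : ∀ᶠ ε in 𝓝[>] (0 : ℝ), ε ∈ Ioi 0)))))))))))).exists
  have hε : 0 < ε := hε0
  obtain ⟨⟨hεε₀, hεε₃⟩, hεr, hεc⟩ :
      (ε < ε₀ ∧ ε < ε₃) ∧ ε < r ∧ ε < c := by
    rw [lt_min_iff, lt_min_iff, lt_min_iff] at hε1
    exact hε1
  rw [lt_min_iff] at hε2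
  obtain ⟨hKr, hKM⟩ := hε2
  clear hε1 g0 g1 g2 g3 g4 g5 g6 g7 g8 es1 hge eu eB
  obtain ⟨U, hU⟩ : ∃ U : ℝ → ℝ × ℝ, U = u ε := ⟨_, rfl⟩
  rw [← hU] at hS hg0 hg1 hg2 hg3 hg4 hg5 hg6 hg7 hg8
  obtain ⟨f1, hf1⟩ : ∃ f, f = gfun ε U (fun w => w.1 * (es + w.2.2.2.1)) := ⟨_, rfl⟩
  obtain ⟨c1, hc1⟩ : ∃ f, f = gfun ε U (fun w => D1 α (qm es μ w)) := ⟨_, rfl⟩
  obtain ⟨c2, hc2⟩ : ∃ f, f = gfun ε U (fun w => D2 α (qm es μ w)) := ⟨_, rfl⟩
  obtain ⟨c3, hc3⟩ : ∃ f, f = gfun ε U (fun w => D3 α (qm es μ w)) := ⟨_, rfl⟩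
  obtain ⟨c4, hc4⟩ : ∃ f, f = gfun ε U (fun w => D4 α (qm es μ w)) := ⟨_, rfl⟩
  obtain ⟨kA, hkA⟩ : ∃ f, f = gfun ε U (fun w => K1 α (qm es μ w)) := ⟨_, rfl⟩
  obtain ⟨kS, hkS⟩ : ∃ f, f = gfun ε U (fun w => K2 α (qm es μ w)) := ⟨_, rfl⟩
  obtain ⟨v2, hv2⟩ : ∃ f, f = gfun ε U (fun w => w.1 * e2 α (qm es μ w)) := ⟨_, rfl⟩
  obtain ⟨w2, hw2⟩ : ∃ f, f = gfun ε U (fun w => Bil.h2 α (qm es μ w)) := ⟨_, rfl⟩
  obtain ⟨w1, hw1⟩ : ∃ f : ℝ → ℝ, f = fun x => tt ε x * (ts ε x * (U x).2 / μ) := ⟨_, rfl⟩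
  rw [← hf1] at hg1
  rw [← hc1] at hg2
  rw [← hc2] at hg3
  rw [← hc3] at hg4
  rw [← hc4] at hg5
  rw [← hkA] at hg6
  rw [← hkS] at hg7
  rw [← hv2] at hg8
  have hg0' : Good (fun y => ε * chi y) (1 / 5) c := by
    have h3 : (fun y => ε * chi y) = gfun ε U (fun _ => 1) := by
      funext y
      by_cases hy : y ≤ 0
      · simp [gfun, hy, chi_nonpos hy]
      · simp [gfun, hy, tt]
    rw [h3]
    exact hg0
  -- values for positive `x`
  have vf1 : ∀ x, 0 < x → f1 x = tt ε x * (tt ε x * (es + (U x).1)) := fun x hx => by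
    rw [hf1, gfun_pos hx]; rfl
  have vc1 : ∀ x, 0 < x → c1 x = tt ε x * D1 α (qm es μ (WW ε U x)) := fun x hx => by
    rw [hc1, gfun_pos hx]
  have vc2 : ∀ x, 0 < x → c2 x = tt ε x * D2 α (qm es μ (WW ε U x)) := fun x hx => by
    rw [hc2, gfun_pos hx]
  have vc3 : ∀ x, 0 < x → c3 x = tt ε x * D3 α (qm es μ (WW ε U x)) := fun x hx => by
    rw [hc3, gfun_pos hx]
  have vc4 : ∀ x, 0 < x → c4 x = tt ε x * D4 α (qm es μ (WW ε U x)) := fun x hx => by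
    rw [hc4, gfun_pos hx]
  have vkA : ∀ x, 0 < x → kA x = tt ε x * K1 α (qm es μ (WW ε U x)) := fun x hx => by
    rw [hkA, gfun_pos hx]
  have vkS : ∀ x, 0 < x → kS x = tt ε x * K2 α (qm es μ (WW ε U x)) := fun x hx => by
    rw [hkS, gfun_pos hx]
  have vv2 : ∀ x, 0 < x → v2 x = tt ε x * (tt ε x * e2 α (qm es μ (WW ε U x))) := fun x hx => by
    rw [hv2, gfun_pos hx]; rfl
  have vw2 : ∀ x, 0 < x → w2 x = tt ε x * Bil.h2 α (qm es μ (WW ε U x)) := fun x hx => by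
    rw [hw2, gfun_pos hx]
  have vw1 : ∀ x, w1 x = tt ε x * (ts ε x * (U x).2 / μ) := fun x => by rw [hw1]
  -- basic facts at a point
  have tpos : ∀ x ∈ Ioo (0 : ℝ) (1 / 5), 0 < tt ε x := fun x hx => mul_pos hε (chi_pos hx.1)
  have hts : ∀ x, 0 < x → tt ε x = x ^ 2 * ts ε x := fun x hx => by
    rw [tt, ts, k2]; field_simp
  have spos : ∀ x ∈ Ioo (0 : ℝ) (1 / 5), 0 < ts ε x := fun x hx => by
    rw [ts, k2]; exact mul_pos hε (div_pos (chi_pos hx.1) (pow_pos hx.1 2))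
  have sle : ∀ x ∈ Ioo (0 : ℝ) (1 / 5), ts ε x ≤ ε * K := fun x hx =>
    mul_le_mul_of_nonneg_left (hk2 x hx) hε.le
  have tM : ∀ x ∈ Ioo (0 : ℝ) (1 / 5), tt ε x * M ≤ x / 10 := by
    intro x hx
    have h3 : ts ε x * M ≤ 1 / 2 := by
      have h4 : ts ε x ≤ 1 / (2 * M) := (sle x hx).trans hKM.le
      calc ts ε x * M ≤ 1 / (2 * M) * M := mul_le_mul_of_nonneg_right h4 hMpos.le
        _ = 1 / 2 := by field_simp
    have h5 : 0 < ts ε x * M := mul_pos (spos x hx) hMpos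
    rw [hts x hx.1]
    have h6 : x * (ts ε x * M) ≤ 1 / 10 := by nlinarith [hx.1, hx.2]
    calc x ^ 2 * ts ε x * M = x * (x * (ts ε x * M)) := by ring
      _ ≤ x * (1 / 10) := mul_le_mul_of_nonneg_left h6 hx.1.le
      _ = x / 10 := by ring
  have loc : ∀ x ∈ Ioo (0 : ℝ) (1 / 5), Loc α μ a G (WW ε U x) := by
    intro x hx
    apply hloc
    · rw [abs_of_pos (tpos x hx)]
      exact (mul_le_of_le_one_right hε.le (chi_le_one x)).trans_lt hεr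
    · rw [abs_of_pos (spos x hx)]
      exact (sle x hx).trans_lt hKr
    · exact ⟨hx.1.le, hx.2.le⟩
    · simpa using hS.bd x hx.1
  have b1 : ∀ q, D1 α q ∈ Icc 0 (2 / tan α) := fun q => zer_mem _ (by positivity) q
  have b2 : ∀ q, D2 α q ∈ Icc 0 (2 / tan (al2 α)) := fun q => zer_mem _ (by positivity) q
  have b3 : ∀ q, D3 α q ∈ Icc (-(2 / tan (al2 α))) 0 := fun q =>
    zer_mem _ (by rw [neg_nonpos]; positivity) q
  have b4 : ∀ q, D4 α q ∈ Icc (-(2 / tan α)) 0 := fun q =>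
    zer_mem _ (by rw [neg_nonpos]; positivity) q
  have p1 : 0 < 2 / tan α := by positivity
  have p2 : 0 < 2 / tan (al2 α) := by positivity
  have hM' : M = 2 * (2 / tan α) + 2 * (2 / tan (al2 α)) := by rw [hM]; ring
  -- bound for linear expressions
  have lin : ∀ x ∈ Ioo (0 : ℝ) (1 / 5), ∀ Y, |Y| ≤ M → |tt ε x * Y| ≤ x / 10 := by
    intro x hx Y hY
    rw [abs_mul, abs_of_pos (tpos x hx)]
    exact (mul_le_mul_of_nonneg_left hY (tpos x hx).le).trans (tM x hx)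
  have lin' : ∀ x ∈ Ioo (0 : ℝ) (1 / 5), ∀ Y, |Y| ≤ M → 0 < x + tt ε x * Y := by
    intro x hx Y hY
    have h3 := (abs_le.1 (lin x hx Y hY)).1
    have := hx.1
    linarith
  have L1 : ∀ x (hx : x ∈ Ioo (0 : ℝ) (1 / 5)), _ := fun x hx =>
    link_un (ε := ε) hcos hcos2 hx.1 (tpos x hx) rfl (hts x hx.1) (loc x hx).l1
      (lin' x hx _ (by
        have := b1 (qm es μ (WW ε U x))
        rw [abs_le, hM']; constructor <;> linarith [this.1, this.2]))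
      (lin' x hx _ (by
        have h3 := b1 (qm es μ (WW ε U x))
        have h4 := b2 (qm es μ (WW ε U x))
        rw [abs_le, hM']; constructor <;> linarith [h3.1, h3.2, h4.1, h4.2]))
  have L2 : ∀ x (hx : x ∈ Ioo (0 : ℝ) (1 / 5)), _ := fun x hx =>
    link_un (ε := ε) hcos2 hcos hx.1 (tpos x hx) rfl (hts x hx.1) (loc x hx).l2
      (lin' x hx _ (by
        have h3 := b1 (qm es μ (WW ε U x))
        have h4 := b2 (qm es μ (WW ε U x))
        have h5 := b3 (qm es μ (WW ε U x))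
        rw [abs_le, hM', N2]
        constructor <;> linarith [h3.1, h3.2, h4.1, h4.2, h5.1, h5.2]))
      (lin' x hx _ (by
        have h3 := b1 (qm es μ (WW ε U x))
        have h4 := b2 (qm es μ (WW ε U x))
        have h5 := b3 (qm es μ (WW ε U x))
        have h6 := b4 (qm es μ (WW ε U x))
        rw [abs_le, hM', N2]
        constructor <;> linarith [h3.1, h3.2, h4.1, h4.2, h5.1, h5.2, h6.1, h6.2]))
  -- the end of the cycle
  have hXX : ∀ x ∈ Ioo (0 : ℝ) (1 / 5), x + c1 x + c2 x + c3 x + c4 x =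
      x + tt ε x * XX α (qm es μ (WW ε U x)) := by
    intro x hx
    rw [vc1 x hx.1, vc2 x hx.1, vc3 x hx.1, vc4 x hx.1, XX, N2]
    ring
  have hXa : ∀ x ∈ Ioo (0 : ℝ) (1 / 5), x + tt ε x * XX α (qm es μ (WW ε U x)) =
      x - tt ε x ^ 2 * a (WW ε U x) := by
    intro x hx
    rw [(loc x hx).x1]
    simp only [WW]
    ring
  have hypos : ∀ x ∈ Ioo (0 : ℝ) (1 / 5), 0 < x + tt ε x * XX α (qm es μ (WW ε U x)) := by
    intro x hx
    apply lin' x hx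
    have h3 := b1 (qm es μ (WW ε U x))
    have h4 := b2 (qm es μ (WW ε U x))
    have h5 := b3 (qm es μ (WW ε U x))
    have h6 := b4 (qm es μ (WW ε U x))
    rw [abs_le, hM', XX, N2]
    constructor <;> linarith [h3.1, h3.2, h4.1, h4.2, h5.1, h5.2, h6.1, h6.2]
  have htty : ∀ x ∈ Ioo (0 : ℝ) (1 / 5), tt ε (x + tt ε x * XX α (qm es μ (WW ε U x))) =
      tt ε x * PP (ts ε x) x (XX α (qm es μ (WW ε U x))) := by
    intro x hx
    have h3 := chi_PP hx.1 (hts x hx.1) (hypos x hx)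
    rw [tt, h3, tt]
    ring
  have hf1y : ∀ x ∈ Ioo (0 : ℝ) (1 / 5), f1 (x + c1 x + c2 x + c3 x + c4 x) =
      tt ε x ^ 2 * e4 α (qm es μ (WW ε U x)) := by
    intro x hx
    rw [hXX x hx, vf1 _ (hypos x hx), htty x hx, hXa x hx, hS.eq x hx, (loc x hx).x2]
    simp only [WW]
    ring
  have hw1y : ∀ x ∈ Ioo (0 : ℝ) (1 / 5), w1 (x + c1 x + c2 x + c3 x + c4 x) =
      tt ε x * h4 α (qm es μ (WW ε U x)) := by
    intro x hx
    have hxne := hx.1.ne'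
    have h3 : x + tt ε x * XX α (qm es μ (WW ε U x)) =
        x * (1 + x * ts ε x * XX α (qm es μ (WW ε U x))) := by
      rw [hts x hx.1]; ring
    have hz : 1 + x * ts ε x * XX α (qm es μ (WW ε U x)) ≠ 0 := by
      intro h4
      have h5 := hypos x hx
      rw [h3, h4, mul_zero] at h5
      exact lt_irrefl _ h5
    have h6 : ts ε (x + tt ε x * XX α (qm es μ (WW ε U x))) =
        tt ε x * PP (ts ε x) x (XX α (qm es μ (WW ε U x))) /
          (x * (1 + x * ts ε x * XX α (qm es μ (WW ε U x)))) ^ 2 := by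
      have h9 : ∀ y, ts ε y = tt ε y / y ^ 2 := fun y => by
        rw [ts, k2, tt, mul_div_assoc]
      rw [← htty x hx, ← h3, h9]
    rw [hXX x hx, vw1, h6, htty x hx]
    have h7 : U (x + tt ε x * XX α (qm es μ (WW ε U x))) =
        U x - tt ε x • G (WW ε U x) := by
      rw [hXa x hx, hS.eq x hx]
    rw [h7]
    have h8 := alg_w x (ts ε x) (1 + x * ts ε x * XX α (qm es μ (WW ε U x)))
      (PP (ts ε x) x (XX α (qm es μ (WW ε U x)))) (U x - tt ε x • G (WW ε U x)).2 μ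
      (h4 α (qm es μ (WW ε U x))) hxne hz (loc x hx).x3
    rw [← hts x hx.1] at h8
    exact h8
  -- plateau
  have hupl : ε ∈ Ioo 0 ε₀ := ⟨hε, hεε₀⟩
  obtain ⟨hv, _⟩ := FS.sys.pl ε hupl
  have hv2' := FS.upl2 ε hupl
  obtain ⟨e', he'⟩ : ∃ e', e' = es + (upl ε).1 := ⟨_, rfl⟩
  have hqpl : ∀ x ∈ Ico (3 / 20 : ℝ) (1 / 5), qm es μ (WW ε U x) = (ε, ε / x ^ 2, x, e', 0) := by
    intro x hx
    have h3 : tt ε x = ε := by
      rw [tt, chi_one (by linarith [hx.1]), mul_one]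
    have h4 : ts ε x = ε / x ^ 2 := by
      rw [ts, k2, chi_one (by linarith [hx.1]), mul_one_div]
    rw [WW, h3, h4, hS.plat x hx.1, qm, he']
    simp [hv2']
  have httpl : ∀ x ∈ Ico (3 / 20 : ℝ) (1 / 5), tt ε x = ε := by
    intro x hx
    rw [tt, chi_one (by linarith [hx.1]), mul_one]
  have hq0 : qm es μ ((ε, 0, 0, upl ε) : ℝ × ℝ × ℝ × (ℝ × ℝ)) = (ε, 0, 0, e', 0) := by
    rw [qm, he']; simp
  have loc0 : Loc α μ a G (ε, 0, 0, upl ε) := by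
    apply hloc
    · rw [abs_of_pos hε]; exact hεr
    · rw [abs_zero]; exact hr
    · constructor <;> norm_num
    · simpa using hv
  have hK1 : K1 α (ε, 0, 0, e', 0) = -1 := by
    have h3 := loc0.l1.r1
    have h4 := loc0.l1.r2
    rw [hq0] at h3 h4
    simp only [PP_zero, hv2', mul_zero, zero_mul, zero_div, sub_zero, add_zero] at h3 h4
    linarith
  have hh2 : Bil.h2 α (ε, 0, 0, e', 0) = 0 := by
    rw [Bil.h2]
    simp only [PP_zero, hK1]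
    norm_num
  have hK2 : K2 α (ε, 0, 0, e', 0) = 1 := by
    have h3 := loc0.l2.r1
    have h4 := loc0.l2.r2
    rw [hq0] at h3 h4
    simp only [PP_zero, hh2, zero_mul, sub_zero, add_zero] at h3 h4
    linarith
  have P : ∀ x ∈ Ico (3 / 20 : ℝ) (1 / 5), f1 x = ε * (ε * e') ∧
      c1 x = ε * D1 α (ε, 0, 0, e', 0) ∧ c2 x = ε * D2 α (ε, 0, 0, e', 0) ∧
      c3 x = ε * D3 α (ε, 0, 0, e', 0) ∧ c4 x = ε * D4 α (ε, 0, 0, e', 0) ∧
      v2 x = ε * (ε * e2 α (ε, 0, 0, e', 0)) ∧ w1 x = 0 ∧ kA x = -ε ∧ kS x = ε := by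
    intro x hx
    have hx0 : 0 < x := by linarith [hx.1]
    obtain ⟨-, -, -, q1, q2, q3, q4, q5, q6, q7, -⟩ :=
      hpl ε ⟨hε, hεε₃⟩ x ⟨hx.1, hx.2.le⟩ e' 0
    rw [vf1 x hx0, vc1 x hx0, vc2 x hx0, vc3 x hx0, vc4 x hx0, vv2 x hx0, vw1, vkA x hx0,
      vkS x hx0, hqpl x hx, httpl x hx, q1, q2, q3, q4, q5, q6, q7, hK1, hK2,
      hS.plat x hx.1, hv2', he']
    refine ⟨rfl, rfl, rfl, rfl, rfl, rfl, ?_, ?_, ?_⟩ <;> simp
  have h320 : (3 / 20 : ℝ) ∈ Ico (3 / 20 : ℝ) (1 / 5) := by constructor <;> norm_num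
  have P0 := P _ h320
  refine ⟨ε, f1, w1, c1, c2, c3, c4, kA, kS, v2, w2,
    { εpos := hε, εc := hεc.le, gchi := hg0', g1 := hg1, gc1 := hg2, gc2 := hg3, gc3 := hg4,
      gc4 := hg5, gkA := hg6, gkS := hg7, gv2 := hg8, sgn := ?_, R1 := ?_, R2 := ?_, R3 := ?_,
      R4 := ?_, R5 := ?_, S1 := ?_, S2 := ?_, S3 := ?_, S4 := ?_, S5 := ?_, left := ?_,
      plat := ?_ }⟩
  · intro x hx
    rw [vc1 x hx.1, vc2 x hx.1, vc3 x hx.1, vc4 x hx.1]
    have h3 := b1 (qm es μ (WW ε U x))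
    have h4 := b2 (qm es μ (WW ε U x))
    have h5 := b3 (qm es μ (WW ε U x))
    have h6 := b4 (qm es μ (WW ε U x))
    refine ⟨lin x hx _ ?_, lin x hx _ ?_, lin x hx _ ?_, lin x hx _ ?_⟩ <;>
      (rw [abs_le, hM']; constructor <;> linarith [h3.1, h3.2, h4.1, h4.2, h5.1, h5.2, h6.1, h6.2])
  · intro x hx
    rw [vc1 x hx.1, vf1 x hx.1, vw1]
    have h := (L1 x hx).1
    have h3 : x + tt ε x * (0 - D1 α (qm es μ (WW ε U x))) =
      x - tt ε x * D1 α (qm es μ (WW ε U x)) := by ring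
    simp only [← hes, WW] at h h3 ⊢
    rw [h3] at h
    linear_combination h
  · intro x hx
    rw [vc1 x hx.1, vf1 x hx.1, vw1, vkA x hx.1]
    have h := (L1 x hx).2.1
    simp only [← hes, WW] at h ⊢
    linear_combination h
  · intro x hx
    rw [vc2 x hx.1, vv2 x hx.1, vw2 x hx.1, vkA x hx.1]
    have h := (L1 x hx).2.2.1
    simp only [← hes, WW] at h ⊢
    linear_combination h
  · intro x hx
    rw [vc1 x hx.1, vc2 x hx.1, vv2 x hx.1, vw2 x hx.1]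
    have h := (L1 x hx).2.2.2.1
    have h3 : x + tt ε x * (0 + D1 α (qm es μ (WW ε U x)) + 2 * D2 α (qm es μ (WW ε U x))) =
      x + tt ε x * D1 α (qm es μ (WW ε U x)) + 2 * (tt ε x * D2 α (qm es μ (WW ε U x))) := by ring
    simp only [← hes, WW] at h h3 ⊢
    rw [h3] at h
    linear_combination h
  · intro x hx
    rw [vc1 x hx.1, vc2 x hx.1, vf1 x hx.1, vv2 x hx.1]
    have h := (L1 x hx).2.2.2.2
    have h3 : x + tt ε x * (0 + D1 α (qm es μ (WW ε U x)) + 2 * D2 α (qm es μ (WW ε U x))) =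
      x + tt ε x * D1 α (qm es μ (WW ε U x)) + 2 * (tt ε x * D2 α (qm es μ (WW ε U x))) := by ring
    have h4 : x + tt ε x * (0 - D1 α (qm es μ (WW ε U x))) =
      x - tt ε x * D1 α (qm es μ (WW ε U x)) := by ring
    simp only [← hes, WW] at h h3 h4 ⊢
    rw [h3, h4] at h
    linear_combination h
  · intro x hx
    rw [vc1 x hx.1, vc2 x hx.1, vc3 x hx.1, vv2 x hx.1, vw2 x hx.1]
    have h := (L2 x hx).1
    have h3 : x + tt ε x * (N2 α (qm es μ (WW ε U x)) - D3 α (qm es μ (WW ε U x))) =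
      x + tt ε x * D1 α (qm es μ (WW ε U x)) + tt ε x * D2 α (qm es μ (WW ε U x)) -
        tt ε x * D3 α (qm es μ (WW ε U x)) := by rw [N2]; ring
    simp only [← hes, WW] at h h3 ⊢
    rw [h3] at h
    linear_combination h
  · intro x hx
    rw [vc3 x hx.1, vv2 x hx.1, vw2 x hx.1, vkS x hx.1]
    have h := (L2 x hx).2.1
    simp only [← hes, WW] at h ⊢
    linear_combination h
  · intro x hx
    rw [hf1y x hx, hw1y x hx, vc4 x hx.1, vkS x hx.1]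
    have h := (L2 x hx).2.2.1
    simp only [← hes, WW] at h ⊢
    linear_combination h
  · intro x hx
    rw [hf1y x hx, hw1y x hx]
    rw [vc1 x hx.1, vc2 x hx.1, vc3 x hx.1, vc4 x hx.1]
    have h := (L2 x hx).2.2.2.1
    have h3 : x + tt ε x * (N2 α (qm es μ (WW ε U x)) + D3 α (qm es μ (WW ε U x)) +
        2 * D4 α (qm es μ (WW ε U x))) =
      x + tt ε x * D1 α (qm es μ (WW ε U x)) + tt ε x * D2 α (qm es μ (WW ε U x)) +
        tt ε x * D3 α (qm es μ (WW ε U x)) + 2 * (tt ε x * D4 α (qm es μ (WW ε U x))) := by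
      rw [N2]; ring
    simp only [← hes, WW] at h h3 ⊢
    rw [h3] at h
    linear_combination h
  · intro x hx
    rw [hf1y x hx]
    rw [vc1 x hx.1, vc2 x hx.1, vc3 x hx.1, vc4 x hx.1, vv2 x hx.1]
    have h := (L2 x hx).2.2.2.2
    have h3 : x + tt ε x * (N2 α (qm es μ (WW ε U x)) + D3 α (qm es μ (WW ε U x)) +
        2 * D4 α (qm es μ (WW ε U x))) =
      x + tt ε x * D1 α (qm es μ (WW ε U x)) + tt ε x * D2 α (qm es μ (WW ε U x)) +
        tt ε x * D3 α (qm es μ (WW ε U x)) + 2 * (tt ε x * D4 α (qm es μ (WW ε U x))) := by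
      rw [N2]; ring
    have h4 : x + tt ε x * (N2 α (qm es μ (WW ε U x)) - D3 α (qm es μ (WW ε U x))) =
      x + tt ε x * D1 α (qm es μ (WW ε U x)) + tt ε x * D2 α (qm es μ (WW ε U x)) -
        tt ε x * D3 α (qm es μ (WW ε U x)) := by rw [N2]; ring
    simp only [← hes, WW] at h h3 h4 ⊢
    rw [h3, h4] at h
    linear_combination h
  · intro x hx
    have h3 := hXX x hx
    rw [hXa x hx] at h3
    have h4 := hS.pos x hx
    have h5 := tpos x hx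
    have h6 : 0 < tt ε x ^ 2 * a (WW ε U x) := by positivity
    linarith
  · intro x hx
    obtain ⟨q1, q2, q3, q4, q5, q6, q7, q8, q9⟩ := P x hx
    obtain ⟨o1, o2, o3, o4, o5, o6, -, -, -⟩ := P0
    exact ⟨q1.trans o1.symm, q2.trans o2.symm, q3.trans o3.symm, q4.trans o4.symm,
      q5.trans o5.symm, q6.trans o6.symm, q7, q8, q9⟩

end Pool.Agent.Helper58.Bil
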